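import Pool.Agent.Results.MP_71ac24_nt.RandomFrequencySieve
import Pool.Agent.X149.SmallT
import Pool.Agent.X149.UnifSeq

set_option autoImplicit false

/-!
# The large values conjecture for almost every perturbation of the integers

The integers `n` are replaced by `n + η θ_n`, where `η` is any fixed number of `(0, 1]` and
`θ = (θ_n)` is a sequence of independent random numbers, uniformly distributed on `[0, 1]`. For
almost every `θ` the statement of Q1 holds word for word, for all `N`, `T`, `V`, all coefficients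
and all 1-spaced families. It follows from the corresponding large sieve inequality with
`∑ |a_n|²`.
-/

namespace Pool.Agent.Results.MP_a93a41_nt.AlmostSurely

open MeasureTheory Finset Pool.Agent.X149

/-- `D(it) = ∑_{n = 1}^N a_n (n + η θ_n)^{-it}` -/
noncomputable def D (η : ℝ) (θ : ℕ → unitInterval) (a : ℕ → ℂ) (N : ℕ) (t : ℝ) : ℂ :=
  ∑ n ∈ Finset.Icc 1 N, a n * (((n : ℝ) + η * (θ n : ℝ) : ℝ) : ℂ) ^ (-((t : ℂ) * Complex.I))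

theorem icc_sum {A : Type} [AddCommMonoid A] (N : ℕ) (F : ℕ → A) :
    ∑ n ∈ Finset.Icc 1 N, F n = ∑ n : Fin N, F ((n : ℕ) + 1) := by
  have h1 : Finset.Icc 1 N = Finset.Ico 1 (N + 1) := rfl
  rw [h1, Finset.sum_Ico_eq_sum_range, ← Finset.sum_range (fun n : ℕ => F (n + 1))]
  have h2 : N + 1 - 1 = N := by omega
  rw [h2]
  exact sum_congr rfl (fun n _ => by rw [add_comm])

theorem ph_neg (t y : ℝ) : DU.ph (-t) y = (starRingEnd ℂ) (DU.ph t y) := by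
  have h1 := DU.ph_mul_conj 0 t y
  have h2 : DU.ph 0 y = 1 := by
    unfold DU.ph
    simp
  rw [h2, one_mul, zero_sub] at h1
  exact h1.symm

theorem D_norm {η : ℝ} (hη : 0 < η) (θ : ℕ → unitInterval) (a : ℕ → ℂ) (N : ℕ) (t : ℝ) :
    ‖D η θ a N t‖ = ‖∑ n : Fin N, (starRingEnd ℂ) (a ((n : ℕ) + 1)) *
      DU.ph t (((n : ℕ) : ℝ) + 1 + η * DU.coord N θ n)‖ := by
  rw [← Complex.norm_conj (∑ n : Fin N, _), map_sum]
  congr 1
  unfold D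
  rw [icc_sum]
  refine sum_congr rfl (fun n _ => ?_)
  rw [map_mul, Complex.conj_conj, ← ph_neg]
  congr 1
  have h0 : 0 ≤ (θ ((n : ℕ) + 1) : ℝ) := (θ ((n : ℕ) + 1)).2.1
  have h1 : (0 : ℝ) < ((n : ℕ) : ℝ) + 1 + η * (θ ((n : ℕ) + 1) : ℝ) := by positivity
  have h2 := DU.ph_cpow (t := -t) h1
  unfold DU.coord
  rw [h2]
  push_cast
  congr 1
  ring

theorem coef_sum (a : ℕ → ℂ) (N : ℕ) : ∑ n : Fin N, ‖(starRingEnd ℂ) (a ((n : ℕ) + 1))‖ ^ 2 =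
    ∑ n ∈ Finset.Icc 1 N, ‖a n‖ ^ 2 := by
  rw [icc_sum]
  exact sum_congr rfl (fun n _ => by rw [Complex.norm_conj])

/-- the good event for the exponent `A` -/
theorem ae_good (η : ℝ) (hη : 0 < η) (hη1 : η ≤ 1) (A : ℕ) : ∃ C : ℝ, 0 < C ∧
    ∀ᵐ θ ∂DU.μseq, ∃ N₀ : ℕ, ∀ N ≥ N₀, ∀ a : ℕ → ℂ, ∀ S : Finset ℝ,
      (∀ t ∈ S, 0 ≤ t ∧ t ≤ (N : ℝ) ^ (A : ℝ)) → (∀ t ∈ S, ∀ u ∈ S, t ≠ u → 1 ≤ |t - u|) →
      ∑ t ∈ S, ‖D η θ a N t‖ ^ 2 ≤ C * Real.log (N / η) ^ 3 * (N / η + S.card) *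
        ∑ n ∈ Finset.Icc 1 N, ‖a n‖ ^ 2 := by
  classical
  obtain ⟨C, hC, hmain⟩ := MP_71ac24_nt.RandomFrequencySieve.part_two A 2 (Nat.cast_nonneg A)
    (by norm_num)
  refine ⟨C, hC, ?_⟩
  have hex : ∀ N : ℕ, ∃ E : Set (Fin N → ℝ), MeasurableSet E ∧
      volume (E ∩ Set.Icc 0 1) ≤ ENNReal.ofReal ((N : ℝ) ^ (-2 : ℝ)) ∧
      (2 ≤ N → ∀ θ ∈ Set.Icc (0 : Fin N → ℝ) 1, θ ∉ E → ∀ a : Fin N → ℂ, ∀ S : Finset ℝ,
          (∀ t ∈ S, 0 ≤ t ∧ t ≤ (N : ℝ) ^ (A : ℝ)) →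
          (∀ t ∈ S, ∀ u ∈ S, t ≠ u → 1 ≤ |t - u|) →
          ∑ t ∈ S, ‖MP_71ac24_nt.RandomFrequencySieve.D N η θ a t‖ ^ 2 ≤
            C * Real.log (N / η) ^ 3 * (N / η + S.card) * ∑ n, ‖a n‖ ^ 2) := by
    intro N
    rcases Nat.lt_or_ge N 2 with h | h
    · exact ⟨∅, MeasurableSet.empty, by simp, fun h' => by omega⟩
    · have hN0 : (2 : ℝ) ≤ N := by exact_mod_cast h
      obtain ⟨E, h1, h2, h3⟩ := hmain N ((N : ℝ) ^ (A : ℝ)) η h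
        (Real.one_le_rpow (by linarith) (Nat.cast_nonneg A)) le_rfl hη hη1
      exact ⟨E, h1, h2, fun _ => h3⟩
  choose E hE1 hE2 hE3 using hex
  have hsum : ∑' N, DU.μseq (DU.coord N ⁻¹' (E N)) ≠ ⊤ := by
    have h1 : ∑' N, DU.μseq (DU.coord N ⁻¹' (E N)) ≤
        ∑' N : ℕ, ENNReal.ofReal ((N : ℝ) ^ (-2 : ℝ)) := by
      refine ENNReal.tsum_le_tsum (fun N => ?_)
      rw [DU.coord_measure N (hE1 N)]
      exact hE2 N
    have h2 : Summable (fun N : ℕ => (N : ℝ) ^ (-2 : ℝ)) := Real.summable_nat_rpow.2 (by norm_num)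
    rw [← ENNReal.ofReal_tsum_of_nonneg (fun N => by positivity) h2] at h1
    exact ne_top_of_le_ne_top ENNReal.ofReal_ne_top h1
  filter_upwards [ae_eventually_notMem hsum] with θ hθ
  obtain ⟨N₁, hN₁⟩ := Filter.eventually_atTop.1 hθ
  refine ⟨max N₁ 2, fun N hN a S hST hsep => ?_⟩
  have hN2 : 2 ≤ N := le_trans (le_max_right _ _) hN
  have h1 := hE3 N hN2 (DU.coord N θ) (DU.coord_mem N θ)
    (hN₁ N (le_trans (le_max_left _ _) hN)) (fun n => (starRingEnd ℂ) (a ((n : ℕ) + 1))) S hST hsep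
  rw [coef_sum] at h1
  refine le_trans (le_of_eq (sum_congr rfl (fun t _ => ?_))) h1
  rw [D_norm hη, MP_71ac24_nt.RandomFrequencySieve.D_eq N hη _ (DU.coord_mem N θ)]

theorem trivial_bound {η : ℝ} (hη : 0 < η) (θ : ℕ → unitInterval) (a : ℕ → ℂ) (N : ℕ) (t : ℝ) :
    ‖D η θ a N t‖ ^ 2 ≤ N * ∑ n ∈ Finset.Icc 1 N, ‖a n‖ ^ 2 := by
  rw [D_norm hη, ← coef_sum]
  have h1 : ‖∑ n : Fin N, (starRingEnd ℂ) (a ((n : ℕ) + 1)) *
      DU.ph t (((n : ℕ) : ℝ) + 1 + η * DU.coord N θ n)‖ ≤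
      ∑ n : Fin N, ‖(starRingEnd ℂ) (a ((n : ℕ) + 1))‖ * 1 := by
    refine (norm_sum_le _ _).trans (sum_le_sum (fun n _ => ?_))
    rw [norm_mul, DU.ph_norm]
  calc _ ≤ (∑ n : Fin N, ‖(starRingEnd ℂ) (a ((n : ℕ) + 1))‖ * 1) ^ 2 :=
        pow_le_pow_left₀ (norm_nonneg _) h1 2
    _ ≤ (∑ n : Fin N, ‖(starRingEnd ℂ) (a ((n : ℕ) + 1))‖ ^ 2) * ∑ _n : Fin N, (1 : ℝ) ^ 2 :=
        sum_mul_sq_le_sq_mul_sq _ _ _
    _ = _ := by simp [mul_comm]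

theorem trivial_sum {η : ℝ} (hη : 0 < η) (θ : ℕ → unitInterval) (a : ℕ → ℂ) (N : ℕ)
    (S : Finset ℝ) : ∑ t ∈ S, ‖D η θ a N t‖ ^ 2 ≤
      S.card * (N * ∑ n ∈ Finset.Icc 1 N, ‖a n‖ ^ 2) := by
  refine (sum_le_sum (fun t _ => trivial_bound hη θ a N t)).trans (le_of_eq ?_)
  rw [sum_const, nsmul_eq_mul]

theorem short_bound {η : ℝ} (hη : 0 < η) (hη1 : η ≤ 1) (θ : ℕ → unitInterval) (a : ℕ → ℂ)
    {N : ℕ} {T : ℝ} (hT : 1 ≤ T) (hTN : T ^ 3 ≤ N) (S : Finset ℝ)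
    (hS : ∀ t ∈ S, 0 ≤ t ∧ t ≤ T) (hsep : ∀ t ∈ S, ∀ u ∈ S, t ≠ u → 1 ≤ |t - u|) :
    ∑ t ∈ S, ‖D η θ a N t‖ ^ 2 ≤ 4 * (N * (42 + 16 * Real.log (2 * T))) *
      ∑ n ∈ Finset.Icc 1 N, ‖a n‖ ^ 2 := by
  have h1 := DU.short hT hTN (fun n : Fin N => ((n : ℕ) : ℝ) + 1 + η * DU.coord N θ n) (by
    intro n
    have h0 : 0 ≤ DU.coord N θ n := (DU.coord_mem N θ).1 n
    have h1 : DU.coord N θ n ≤ 1 := (DU.coord_mem N θ).2 n
    constructor <;> nlinarith) S hS hsep (fun n => (starRingEnd ℂ) (a ((n : ℕ) + 1)))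
  rw [coef_sum] at h1
  refine le_trans (le_of_eq (sum_congr rfl (fun t _ => ?_))) h1
  rw [D_norm hη]

/-- the large sieve inequality for one sequence -/
theorem sieve_of_good {η : ℝ} (hη : 0 < η) (hη1 : η ≤ 1) (θ : ℕ → unitInterval)
    (hgood : ∀ A : ℕ, ∃ C : ℝ, 0 < C ∧ ∃ N₀ : ℕ, ∀ N ≥ N₀, ∀ a : ℕ → ℂ, ∀ S : Finset ℝ,
      (∀ t ∈ S, 0 ≤ t ∧ t ≤ (N : ℝ) ^ (A : ℝ)) → (∀ t ∈ S, ∀ u ∈ S, t ≠ u → 1 ≤ |t - u|) →
      ∑ t ∈ S, ‖D η θ a N t‖ ^ 2 ≤ C * Real.log (N / η) ^ 3 * (N / η + S.card) *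
        ∑ n ∈ Finset.Icc 1 N, ‖a n‖ ^ 2) (ε : ℝ) (hε : 0 < ε) : ∃ C : ℝ, 1 ≤ C ∧
    ∀ N : ℕ, 1 ≤ N → ∀ T : ℝ, 1 ≤ T → ∀ a : ℕ → ℂ, ∀ S : Finset ℝ,
      (∀ t ∈ S, 0 ≤ t ∧ t ≤ T) → (∀ t ∈ S, ∀ u ∈ S, t ≠ u → 1 ≤ |t - u|) →
      ∑ t ∈ S, ‖D η θ a N t‖ ^ 2 ≤ C * T ^ ε * (N + S.card) *
        ∑ n ∈ Finset.Icc 1 N, ‖a n‖ ^ 2 := by
  obtain ⟨C₁, hC₁, N₀, hN₀⟩ := hgood ⌈1 / ε⌉₊
  have hli : 0 ≤ Real.log (1 / η) := Real.log_nonneg (by rw [le_div_iff₀ hη]; linarith)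
  have hK2 : 0 ≤ C₁ * η⁻¹ * (9 / ε + Real.log (1 / η)) ^ 3 := by positivity
  have hK1 : 0 ≤ 4 * (42 + 16 * (1 + 1 / ε)) := by positivity
  have hN₀0 : (0 : ℝ) ≤ N₀ := Nat.cast_nonneg N₀
  obtain ⟨K₁, hK₁⟩ : ∃ K : ℝ, K = 4 * (42 + 16 * (1 + 1 / ε)) := ⟨_, rfl⟩
  obtain ⟨K₂, hK₂⟩ : ∃ K : ℝ, K = C₁ * η⁻¹ * (9 / ε + Real.log (1 / η)) ^ 3 := ⟨_, rfl⟩
  rw [← hK₁] at hK1
  rw [← hK₂] at hK2
  refine ⟨1 + N₀ + K₁ + K₂, by linarith, ?_⟩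
  intro N hN T hT a S hST hsep
  obtain ⟨X, hX⟩ : ∃ X : ℝ, X = ∑ n ∈ Finset.Icc 1 N, ‖a n‖ ^ 2 := ⟨_, rfl⟩
  have hX0 : 0 ≤ X := by rw [hX]; exact sum_nonneg (fun _ _ => sq_nonneg _)
  have htriv := trivial_sum hη θ a N S
  have hN1 : (1 : ℝ) ≤ N := by exact_mod_cast hN
  have hTε : 1 ≤ T ^ ε := Real.one_le_rpow hT hε.le
  have hs0 : (0 : ℝ) ≤ S.card := Nat.cast_nonneg _
  rw [← hX] at htriv ⊢
  -- it suffices to have one of the constants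
  have hsuff : ∀ K : ℝ, 0 ≤ K → K ≤ 1 + N₀ + K₁ + K₂ →
      ∑ t ∈ S, ‖D η θ a N t‖ ^ 2 ≤ K * T ^ ε * (N + S.card) * X →
      ∑ t ∈ S, ‖D η θ a N t‖ ^ 2 ≤ (1 + N₀ + K₁ + K₂) * T ^ ε * (N + S.card) * X := by
    intro K _ hK h
    refine h.trans ?_
    apply mul_le_mul_of_nonneg_right _ hX0
    apply mul_le_mul_of_nonneg_right _ (by linarith)
    exact mul_le_mul_of_nonneg_right hK (by linarith)
  rcases le_or_gt (N : ℝ) (T ^ ε) with hB | hB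
  · -- `T` is very large
    refine hsuff 1 zero_le_one (by linarith) (htriv.trans ?_)
    calc (S.card : ℝ) * (N * X) = N * S.card * X := by ring
      _ ≤ (T ^ ε) * (N + S.card) * X := by
          apply mul_le_mul_of_nonneg_right _ hX0
          exact mul_le_mul hB (by linarith) hs0 (by linarith)
      _ = _ := by ring
  rcases le_or_gt (T ^ 3) N with hA | hA
  · -- `T` is small
    refine hsuff K₁ hK1 (by linarith) ?_
    have h1 := short_bound hη hη1 θ a hT hA S hST hsep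
    rw [← hX] at h1
    refine h1.trans ?_
    have h2 : Real.log (2 * T) ≤ (1 + 1 / ε) * T ^ ε := by
      rw [Real.log_mul (by norm_num) (by linarith)]
      have h3 := Real.log_two_lt_d9
      have h4 := Real.log_le_rpow_div (by linarith : 0 ≤ T) hε
      have h5 : (1 + 1 / ε) * T ^ ε = T ^ ε + T ^ ε / ε := by ring
      linarith
    have h3 : 4 * (N * (42 + 16 * Real.log (2 * T))) ≤ K₁ * T ^ ε * (N + S.card) := by
      have h4 : 42 + 16 * Real.log (2 * T) ≤ (42 + 16 * (1 + 1 / ε)) * T ^ ε := by nlinarith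
      calc 4 * (N * (42 + 16 * Real.log (2 * T)))
          ≤ 4 * (N * ((42 + 16 * (1 + 1 / ε)) * T ^ ε)) := by
            apply mul_le_mul_of_nonneg_left _ (by norm_num)
            exact mul_le_mul_of_nonneg_left h4 (by linarith)
        _ = K₁ * T ^ ε * N := by rw [hK₁]; ring
        _ ≤ K₁ * T ^ ε * (N + S.card) := by
            apply mul_le_mul_of_nonneg_left _ (by positivity)
            linarith
    exact mul_le_mul_of_nonneg_right h3 hX0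
  rcases Nat.lt_or_ge N N₀ with hC | hC
  · -- `N` is bounded
    have hC' : (N : ℝ) ≤ N₀ := by exact_mod_cast hC.le
    refine hsuff N₀ hN₀0 (by linarith) (htriv.trans ?_)
    calc (S.card : ℝ) * (N * X) = N * S.card * X := by ring
      _ ≤ (N₀ * T ^ ε) * (N + S.card) * X := by
          apply mul_le_mul_of_nonneg_right _ hX0
          refine mul_le_mul ?_ (by linarith) hs0 (by positivity)
          nlinarith
      _ = _ := by ring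
  · -- the main case
    refine hsuff K₂ hK2 (by linarith) ?_
    have hTA : T ≤ (N : ℝ) ^ ((⌈1 / ε⌉₊ : ℕ) : ℝ) := by
      have h1 : T = (T ^ ε) ^ (1 / ε) := by
        rw [← Real.rpow_mul (by linarith), mul_one_div, div_self hε.ne', Real.rpow_one]
      rw [h1]
      calc (T ^ ε) ^ (1 / ε) ≤ (N : ℝ) ^ (1 / ε) :=
            Real.rpow_le_rpow (by positivity) hB.le (by positivity)
        _ ≤ _ := Real.rpow_le_rpow_of_exponent_le hN1 (Nat.le_ceil _)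
    have h1 := hN₀ N hC a S (fun t ht => ⟨(hST t ht).1, (hST t ht).2.trans hTA⟩) hsep
    rw [← hX] at h1
    refine h1.trans ?_
    apply mul_le_mul_of_nonneg_right _ hX0
    have h2 : Real.log (N / η) ≤ (9 / ε + Real.log (1 / η)) * T ^ (ε / 3) := by
      have h3 : (N : ℝ) / η = N * (1 / η) := by ring
      rw [h3, Real.log_mul (by linarith) (by positivity)]
      have h4 : Real.log N ≤ 3 * Real.log T := by
        calc Real.log N ≤ Real.log (T ^ 3) := Real.log_le_log (by linarith) hA.le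
          _ = 3 * Real.log T := by rw [Real.log_pow]; norm_num
      have h5 := Real.log_le_rpow_div (by linarith : 0 ≤ T) (by positivity : 0 < ε / 3)
      have h6 : 1 ≤ T ^ (ε / 3) := Real.one_le_rpow hT (by positivity)
      have h7 : T ^ (ε / 3) / (ε / 3) = 3 / ε * T ^ (ε / 3) := by
        field_simp
      rw [h7] at h5
      have h8 : 9 / ε = 3 * (3 / ε) := by ring
      rw [h8]
      nlinarith
    have h0 : 0 ≤ Real.log (N / η) := Real.log_nonneg (by rw [le_div_iff₀ hη]; nlinarith)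
    have h3 : Real.log (N / η) ^ 3 ≤ (9 / ε + Real.log (1 / η)) ^ 3 * T ^ ε := by
      calc Real.log (N / η) ^ 3 ≤ ((9 / ε + Real.log (1 / η)) * T ^ (ε / 3)) ^ 3 :=
            pow_le_pow_left₀ h0 h2 3
        _ = (9 / ε + Real.log (1 / η)) ^ 3 * (T ^ (ε / 3)) ^ 3 := mul_pow _ _ _
        _ = _ := by
            congr 1
            rw [← Real.rpow_natCast (T ^ (ε / 3)) 3, ← Real.rpow_mul (by linarith)]
            congr 1
            push_cast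
            ring
    have h4 : (N : ℝ) / η + S.card ≤ η⁻¹ * (N + S.card) := by
      have h5 : (1 : ℝ) ≤ η⁻¹ := (one_le_inv₀ hη).2 hη1
      have h6 : (N : ℝ) / η = η⁻¹ * N := by ring
      rw [h6]
      nlinarith
    calc C₁ * Real.log (N / η) ^ 3 * (N / η + S.card)
        ≤ C₁ * ((9 / ε + Real.log (1 / η)) ^ 3 * T ^ ε) * (η⁻¹ * (N + S.card)) := by
          refine mul_le_mul (mul_le_mul_of_nonneg_left h3 hC₁.le) h4 ?_ (by positivity)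
          positivity
      _ = K₂ * T ^ ε * (N + S.card) := by rw [hK₂]; ring

/-- from the large sieve inequality to large values -/
theorem values_of_sieve {η : ℝ} (hη : 0 < η) (θ : ℕ → unitInterval) (ε : ℝ) (hε : 0 < ε) (C : ℝ)
    (hC : 1 ≤ C) (h : ∀ N : ℕ, 1 ≤ N → ∀ T : ℝ, 1 ≤ T → ∀ a : ℕ → ℂ, ∀ S : Finset ℝ,
      (∀ t ∈ S, 0 ≤ t ∧ t ≤ T) → (∀ t ∈ S, ∀ u ∈ S, t ≠ u → 1 ≤ |t - u|) →
      ∑ t ∈ S, ‖D η θ a N t‖ ^ 2 ≤ C * T ^ (ε / 2) * (N + S.card) *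
        ∑ n ∈ Finset.Icc 1 N, ‖a n‖ ^ 2) :
    ∃ C' : ℝ, 0 < C' ∧ ∀ N : ℕ, 1 ≤ N → ∀ T V : ℝ, 1 ≤ T → 0 < V → N * T ^ ε ≤ V ^ 2 →
      ∀ a : ℕ → ℂ, (∀ n, ‖a n‖ ≤ 1) → ∀ S : Finset ℝ,
      (∀ t ∈ S, 0 ≤ t ∧ t ≤ T) → (∀ t ∈ S, ∀ u ∈ S, t ≠ u → 1 ≤ |t - u|) →
      (∀ t ∈ S, V ≤ ‖D η θ a N t‖) → S.card ≤ C' * N ^ 2 / V ^ 2 * T ^ ε := by
  have hC0 : 0 < C := by linarith
  refine ⟨2 * C + 2 * (2 * C) ^ (2 / ε), by positivity, ?_⟩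
  intro N hN T V hT hV hNV a ha S hST hsep hlarge
  have hN1 : (1 : ℝ) ≤ N := by exact_mod_cast hN
  have hs0 : (0 : ℝ) ≤ S.card := Nat.cast_nonneg _
  have hX : ∑ n ∈ Finset.Icc 1 N, ‖a n‖ ^ 2 ≤ N := by
    calc ∑ n ∈ Finset.Icc 1 N, ‖a n‖ ^ 2 ≤ ∑ _n ∈ Finset.Icc 1 N, (1 : ℝ) :=
          sum_le_sum (fun n _ => pow_le_one₀ (norm_nonneg _) (ha n))
      _ = N := by simp
  have hX0 : 0 ≤ ∑ n ∈ Finset.Icc 1 N, ‖a n‖ ^ 2 := sum_nonneg (fun _ _ => sq_nonneg _)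
  have hTε : 1 ≤ T ^ ε := Real.one_le_rpow hT hε.le
  have hTε2 : 1 ≤ T ^ (ε / 2) := Real.one_le_rpow hT (by positivity)
  have hTT : T ^ ε = T ^ (ε / 2) * T ^ (ε / 2) := by
    rw [← Real.rpow_add (by linarith)]
    congr 1
    ring
  have hV2 : 0 < V ^ 2 := by positivity
  have hp1 : 0 ≤ 2 * (2 * C) ^ (2 / ε) := by positivity
  have hgoal : ∀ Z : ℝ, (S.card : ℝ) * V ^ 2 ≤ Z * N ^ 2 * T ^ ε →
      Z ≤ 2 * C + 2 * (2 * C) ^ (2 / ε) →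
      (S.card : ℝ) ≤ (2 * C + 2 * (2 * C) ^ (2 / ε)) * N ^ 2 / V ^ 2 * T ^ ε := by
    intro Z h1 h2
    have h3 : (2 * C + 2 * (2 * C) ^ (2 / ε)) * N ^ 2 / V ^ 2 * T ^ ε =
        ((2 * C + 2 * (2 * C) ^ (2 / ε)) * N ^ 2 * T ^ ε) / V ^ 2 := by ring
    rw [h3, le_div_iff₀ hV2]
    refine h1.trans ?_
    apply mul_le_mul_of_nonneg_right _ (by linarith)
    exact mul_le_mul_of_nonneg_right h2 (by positivity)
  rcases S.eq_empty_or_nonempty with hS0 | hSn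
  · rw [hS0]
    simp only [card_empty, Nat.cast_zero]
    positivity
  rcases le_or_gt (2 * C) (T ^ (ε / 2)) with hbig | hsmall
  · refine hgoal (2 * C) ?_ (by linarith)
    have h1 := h N hN T hT a S hST hsep
    have h2 : (S.card : ℝ) * V ^ 2 ≤ ∑ t ∈ S, ‖D η θ a N t‖ ^ 2 := by
      calc (S.card : ℝ) * V ^ 2 = ∑ _t ∈ S, V ^ 2 := by rw [sum_const, nsmul_eq_mul]
        _ ≤ _ := sum_le_sum (fun t ht => pow_le_pow_left₀ hV.le (hlarge t ht) 2)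
    have h3 : C * T ^ (ε / 2) * (N + S.card) * ∑ n ∈ Finset.Icc 1 N, ‖a n‖ ^ 2 ≤
        C * T ^ (ε / 2) * (N + S.card) * N :=
      mul_le_mul_of_nonneg_left hX (by positivity)
    have h4 : 2 * (C * T ^ (ε / 2) * N) ≤ V ^ 2 := by
      calc 2 * (C * T ^ (ε / 2) * N) = (2 * C) * (T ^ (ε / 2) * N) := by ring
        _ ≤ T ^ (ε / 2) * (T ^ (ε / 2) * N) := mul_le_mul_of_nonneg_right hbig (by positivity)
        _ = N * T ^ ε := by rw [hTT]; ring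
        _ ≤ _ := hNV
    have h5 : (S.card : ℝ) * (2 * (C * T ^ (ε / 2) * N)) ≤ S.card * V ^ 2 :=
      mul_le_mul_of_nonneg_left h4 hs0
    have h6 : (S.card : ℝ) * V ^ 2 ≤ 2 * (C * T ^ (ε / 2) * N * N) := by nlinarith
    refine h6.trans ?_
    rw [hTT]
    have h7 : T ^ (ε / 2) ≤ T ^ (ε / 2) * T ^ (ε / 2) := by nlinarith
    have h8 : 0 ≤ C * N * N := by positivity
    nlinarith
  · refine hgoal (2 * (2 * C) ^ (2 / ε)) ?_ (by linarith)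
    have h1 : T ≤ (2 * C) ^ (2 / ε) := by
      have h2 : T = (T ^ (ε / 2)) ^ (2 / ε) := by
        rw [← Real.rpow_mul (by linarith)]
        have : ε / 2 * (2 / ε) = 1 := by field_simp
        rw [this, Real.rpow_one]
      rw [h2]
      exact Real.rpow_le_rpow (by linarith) hsmall.le (by positivity)
    have h2 : (S.card : ℝ) ≤ 2 * T := by
      have h3 : (S.card : ℝ) ≤ (⌊T⌋₊ : ℝ) + 1 := by exact_mod_cast DU.sep_card S hST hsep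
      have h4 := Nat.floor_le (by linarith : 0 ≤ T)
      linarith
    have h3 : V ^ 2 ≤ N ^ 2 := by
      obtain ⟨t, ht⟩ := hSn
      have h4 := trivial_bound hη θ a N t
      have h5 := pow_le_pow_left₀ hV.le (hlarge t ht) 2
      calc V ^ 2 ≤ _ := h5
        _ ≤ N * ∑ n ∈ Finset.Icc 1 N, ‖a n‖ ^ 2 := h4
        _ ≤ N * N := mul_le_mul_of_nonneg_left hX (by linarith)
        _ = _ := by ring
    calc (S.card : ℝ) * V ^ 2 ≤ (2 * (2 * C) ^ (2 / ε)) * N ^ 2 :=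
          mul_le_mul (by linarith) h3 hV2.le (by positivity)
      _ ≤ (2 * (2 * C) ^ (2 / ε)) * N ^ 2 * T ^ ε :=
          le_mul_of_one_le_right (by positivity) hTε

/-- **The large values conjecture for almost every perturbation of the integers.** Let
`0 < η ≤ 1`. For almost every `θ ∈ [0, 1]^ℕ` and every `ε > 0` there is a `C` such that the
following holds for all `N ≥ 1`, `T ≥ 1` and all finite 1-separated sets `S ⊂ [0, T]`, with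
`D(it) = ∑_{n ≤ N} a_n (n + η θ_n)^{-it}`. (1) For all complex `a_n`:
`∑_{t ∈ S} |D(it)|² ≤ C T^ε (N + |S|) ∑ |a_n|²`. (2) If `|a_n| ≤ 1`, `V² ≥ N T^ε` and
`|D(it)| ≥ V` on `S` then `|S| ≤ C N² V⁻² T^ε`. -/
theorem result (η : ℝ) (hη : 0 < η) (hη1 : η ≤ 1) :
    ∀ᵐ θ ∂(Measure.infinitePi (fun _ : ℕ => (volume : Measure unitInterval))),
      ∀ ε : ℝ, 0 < ε → ∃ C : ℝ,
        (∀ N : ℕ, 1 ≤ N → ∀ T : ℝ, 1 ≤ T → ∀ a : ℕ → ℂ, ∀ S : Finset ℝ,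
          (∀ t ∈ S, 0 ≤ t ∧ t ≤ T) → (∀ t ∈ S, ∀ u ∈ S, t ≠ u → 1 ≤ |t - u|) →
          ∑ t ∈ S, ‖D η θ a N t‖ ^ 2 ≤ C * T ^ ε * (N + S.card) *
            ∑ n ∈ Finset.Icc 1 N, ‖a n‖ ^ 2) ∧
        (∀ N : ℕ, 1 ≤ N → ∀ T V : ℝ, 1 ≤ T → 0 < V → N * T ^ ε ≤ V ^ 2 →
          ∀ a : ℕ → ℂ, (∀ n, ‖a n‖ ≤ 1) → ∀ S : Finset ℝ,
          (∀ t ∈ S, 0 ≤ t ∧ t ≤ T) → (∀ t ∈ S, ∀ u ∈ S, t ≠ u → 1 ≤ |t - u|) →
          (∀ t ∈ S, V ≤ ‖D η θ a N t‖) → S.card ≤ C * N ^ 2 / V ^ 2 * T ^ ε) := by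
  have hall : ∀ᵐ θ ∂DU.μseq, ∀ A : ℕ, ∃ C : ℝ, 0 < C ∧ ∃ N₀ : ℕ, ∀ N ≥ N₀, ∀ a : ℕ → ℂ,
      ∀ S : Finset ℝ, (∀ t ∈ S, 0 ≤ t ∧ t ≤ (N : ℝ) ^ (A : ℝ)) →
      (∀ t ∈ S, ∀ u ∈ S, t ≠ u → 1 ≤ |t - u|) →
      ∑ t ∈ S, ‖D η θ a N t‖ ^ 2 ≤ C * Real.log (N / η) ^ 3 * (N / η + S.card) *
        ∑ n ∈ Finset.Icc 1 N, ‖a n‖ ^ 2 := by
    rw [ae_all_iff]
    intro A
    obtain ⟨C, hC, hae⟩ := ae_good η hη hη1 A
    filter_upwards [hae] with θ hθ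
    exact ⟨C, hC, hθ⟩
  change ∀ᵐ θ ∂DU.μseq, _
  filter_upwards [hall] with θ hθ
  intro ε hε
  obtain ⟨C₁, hC₁, h₁⟩ := sieve_of_good hη hη1 θ hθ ε hε
  obtain ⟨C₂, hC₂, h₂⟩ := sieve_of_good hη hη1 θ hθ (ε / 2) (by positivity)
  obtain ⟨C₃, hC₃, h₃⟩ := values_of_sieve hη θ ε hε C₂ hC₂ h₂
  refine ⟨C₁ + C₃, ?_, ?_⟩
  · intro N hN T hT a S hST hsep
    refine (h₁ N hN T hT a S hST hsep).trans ?_
    apply mul_le_mul_of_nonneg_right _ (sum_nonneg (fun _ _ => sq_nonneg _))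
    apply mul_le_mul_of_nonneg_right _ (by positivity)
    apply mul_le_mul_of_nonneg_right _ (by positivity)
    linarith
  · intro N hN T V hT hV hNV a ha S hST hsep hlarge
    refine (h₃ N hN T V hT hV hNV a ha S hST hsep hlarge).trans ?_
    apply mul_le_mul_of_nonneg_right _ (by positivity)
    apply div_le_div_of_nonneg_right _ (by positivity)
    apply mul_le_mul_of_nonneg_right _ (by positivity)
    linarith

end Pool.Agent.Results.MP_a93a41_nt.AlmostSurely
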