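import Mathlib
import Pool.Agent.X159.MB.WS

/-!
Large values at well spaced points (all `N`, `T`, `V`, all coefficients) and sums of `n^{it}` over
two sets of integers.
-/

set_option autoImplicit false

namespace Pool.Agent.Results.MP_a93a41_nt.BilinearIntegers

open Pool.Agent.X159.MB

theorem result :
    (WellSpaced ↔ BilinearAllRanges) ∧ (WellSpaced ↔ MeanValueAllRanges) :=
  ws_main

end Pool.Agent.Results.MP_a93a41_nt.BilinearIntegers
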