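import Pool.Agent.X159.MB.RoughWS

/-!
# Large values at well spaced points: squarefree integers without small prime factors

Let `𝒜(N)` be sets of integers such that every positive `n ≤ N` is `d a` with `d ∈ D(N)`,
`a ∈ 𝒜(⌊N/d⌋)`, where `∑_{d ∈ D(N)} d^(-1/2) ≤ C_ε N^ε`.  Then Q1 is equivalent to the estimate
`∑_{n ≤ N, n ∈ 𝒜(N)} |∑_{t ∈ W} n^{it}| ≤ C N^(1+ε) |W|^(1/2)` for all sets `W` of at most `N`
integers of `[0, N^A]`, and to the corresponding bilinear estimate.

This applies to the squarefree integers without prime factors in `P(N)`, for increasing sets of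
primes with `∑_{p ∈ P(N), p ≤ 2N} p^(-1/2) = o(log N)`; for instance to the squarefree integers all
of whose prime factors exceed `(log N)^c`, `c < 2`.
-/

set_option autoImplicit false

namespace Pool.Agent.Results.MP_a93a41_nt.SquarefreeRoughSupport

open Pool.Agent.X159.MB

theorem result :
    (∀ 𝒜 : ℕ → Set ℕ, CoversBelow 𝒜 →
      (WellSpaced ↔ BilinearAllRangesIn 𝒜) ∧ (WellSpaced ↔ MeanValueAllRangesIn 𝒜)) ∧
    (∀ P : ℕ → Set ℕ, Thin P → CoversBelow fun N => {n | Squarefree n ∧ ∀ p ∈ P N, ¬ p ∣ n}) ∧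
    (∀ c : ℝ, 0 < c → c < 2 → (WellSpaced ↔
      MeanValueAllRangesIn fun N =>
        {n | Squarefree n ∧ ∀ p : ℕ, p.Prime → p ∣ n → Real.log N ^ c < (p : ℝ)})) := by
  refine ⟨ws_in, fun P hP => coversBelow_rough P hP, fun c hc0 hc => ?_⟩
  have h : (fun N : ℕ => {n | Squarefree n ∧ ∀ p : ℕ, p.Prime → p ∣ n → Real.log N ^ c < (p : ℝ)})
      = rough (smallPrimes c) := by
    funext N
    ext n
    unfold rough smallPrimes
    constructor
    · rintro ⟨h1, h2⟩
      exact ⟨h1, fun p hp hd => absurd (h2 p hp.1 hd) (not_lt.2 hp.2)⟩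
    · rintro ⟨h1, h2⟩
      exact ⟨h1, fun p hp hd => not_le.1 fun hle => h2 p ⟨hp, hle⟩ hd⟩
  rw [h]
  exact (ws_in _ (coversBelow_rough _ (thin_small c hc0 hc))).2

end Pool.Agent.Results.MP_a93a41_nt.SquarefreeRoughSupport
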