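import Pool.Agent.X108.HB.BL

set_option autoImplicit false

/-!
# Dirichlet polynomials on sumsets

Let `D(s) = ∑_{m ≤ N} a_m m^{-s}`, `|a_m| ≤ 1`, and let `A`, `B` be `1`-spaced sets, each contained in
an interval of length `T`, such that `N^n ≤ min(|A|,|B|)` and `T^(n+1) ≤ min(|A|,|B|)^(2n+1)` for some
`n ≥ 1`. Then `∑_{a ∈ A, b ∈ B} |D(i(v+a+b))|² ≤ C T^ε |A| |B| N` for all real `v`, so `|D| ≥ V` holds at
no more than `C T^ε N V^(-2) |A| |B|` of the pairs. The same holds on `v + A - B`.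
-/

namespace Pool.Agent.Results.MP_a93a41_nt.SumsetAverages

open Finset Pool.Agent.X108.HB

/-- `D(it) = ∑_{m ≤ N} a_m m^{-it}` -/
noncomputable def D (N : ℕ) (a : ℕ → ℂ) (t : ℝ) : ℂ :=
  ∑ m ∈ Finset.Icc 1 N, a m * (m : ℂ) ^ (-((t : ℂ) * Complex.I))

/-- `S` is `1`-spaced and contained in an interval of length `T` -/
def Spaced (S : Finset ℝ) (T : ℝ) : Prop :=
  (∀ t ∈ S, ∀ u ∈ S, t ≠ u → 1 ≤ |t - u|) ∧ ∃ x : ℝ, ∀ t ∈ S, x ≤ t ∧ t ≤ x + T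

theorem D_eq (N : ℕ) (a : ℕ → ℂ) (t : ℝ) : D N a t = DD (Icc 1 N) a (-t) := by
  unfold D DD ee
  refine sum_congr rfl fun n hn => ?_
  have hn1 : 1 ≤ n := (mem_Icc.1 hn).1
  have hn0 : (n : ℂ) ≠ 0 := by exact_mod_cast (by omega : n ≠ 0)
  rw [Complex.cpow_def_of_ne_zero hn0, ← Complex.natCast_log]
  congr 2
  push_cast
  ring

theorem neg_ZZ (I : Finset ℕ) (B : Finset ℝ) :
    ∑ m ∈ I, ∑ n ∈ I, ‖∑ y ∈ B, ee (-y) ((m : ℚ) / n)‖ ^ 2 = ZZ I B := by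
  unfold ZZ
  refine sum_congr rfl fun m _ => sum_congr rfl fun n _ => ?_
  have : ∑ y ∈ B, ee (-y) ((m : ℚ) / n) = (starRingEnd ℂ) (∑ y ∈ B, ee y ((m : ℚ) / n)) := by
    rw [map_sum]
    refine sum_congr rfl fun y _ => ?_
    rw [ee_conj]
  rw [this, Complex.norm_conj]

theorem clean (n : ℕ) (hn : 1 ≤ n) (ε : ℝ) (hε : 0 < ε) :
    ∃ C : ℝ, ∀ (N : ℕ) (T : ℝ) (a : ℕ → ℂ) (A B : Finset ℝ), 1 ≤ N → 1 ≤ T → (∀ m, ‖a m‖ ≤ 1) →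
      Spaced A T → Spaced B T → N ^ n ≤ A.card → N ^ n ≤ B.card →
      T ^ (n + 1) ≤ (A.card : ℝ) ^ (2 * n + 1) → T ^ (n + 1) ≤ (B.card : ℝ) ^ (2 * n + 1) →
      ∀ v : ℝ,
        (∑ x ∈ A, ∑ y ∈ B, ‖D N a (v + x + y)‖ ^ 2 ≤ C * T ^ ε * A.card * B.card * N) ∧
        (∑ x ∈ A, ∑ y ∈ B, ‖D N a (v + x - y)‖ ^ 2 ≤ C * T ^ ε * A.card * B.card * N) ∧
        ∀ V : ℝ, 0 < V →
          (((A ×ˢ B).filter (fun p => V ≤ ‖D N a (v + p.1 + p.2)‖)).card : ℝ) ≤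
            C * T ^ ε * N / V ^ 2 * (A.card * B.card) := by
  classical
  obtain ⟨C, hC1, hC⟩ := Z1 hε n hn
  refine ⟨C, ?_⟩
  intro N T a A B hN hT ha hA hB hNA hNB hTA hTB v
  have hT0 : 0 < T := by linarith
  set I : Finset ℕ := Icc 1 N with hI
  have hI1 : ∀ m ∈ I, 1 ≤ m := fun m hm => (mem_Icc.1 hm).1
  have haI : ∀ m ∈ I, ‖a m‖ ≤ 1 := fun m _ => ha m
  obtain ⟨hA1, x, hA2⟩ := hA
  obtain ⟨hB1, y, hB2⟩ := hB
  have zA := hC T hT A x ⟨hA1, hA2⟩ N hN hNA hTA I (Finset.Subset.refl _)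
  have zB := hC T hT B y ⟨hB1, hB2⟩ N hN hNB hTB I (Finset.Subset.refl _)
  have hNr : (0 : ℝ) < N := by exact_mod_cast hN
  set Y : ℝ := C * T ^ ε * N with hY
  have hY0 : 0 ≤ Y := by positivity
  have hs : Real.sqrt (ZZ I A) * Real.sqrt (ZZ I B) ≤ C * T ^ ε * A.card * B.card * N := by
    have a1 : Real.sqrt (ZZ I A) ≤ Real.sqrt (Y * (A.card : ℝ) ^ 2) := by
      apply Real.sqrt_le_sqrt
      refine zA.trans (le_of_eq ?_)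
      rw [hY]; ring
    have a2 : Real.sqrt (ZZ I B) ≤ Real.sqrt (Y * (B.card : ℝ) ^ 2) := by
      apply Real.sqrt_le_sqrt
      refine zB.trans (le_of_eq ?_)
      rw [hY]; ring
    calc _ ≤ Real.sqrt (Y * (A.card : ℝ) ^ 2) * Real.sqrt (Y * (B.card : ℝ) ^ 2) := by gcongr
      _ = Real.sqrt ((Y * (A.card * B.card)) ^ 2) := by
          rw [← Real.sqrt_mul (by positivity)]
          congr 1
          ring
      _ = Y * (A.card * B.card) := Real.sqrt_sq (by positivity)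
      _ = _ := by rw [hY]; ring
  have h1 : ∑ x ∈ A, ∑ y ∈ B, ‖D N a (v + x + y)‖ ^ 2 ≤ C * T ^ ε * A.card * B.card * N := by
    refine le_trans ?_ hs
    have h := bil hI1 a haI A B (fun x => -x) (fun y => -y) (-v)
    rw [neg_ZZ, neg_ZZ] at h
    refine le_trans (le_of_eq ?_) h
    refine sum_congr rfl fun x _ => sum_congr rfl fun y _ => ?_
    rw [D_eq]
    congr 3
    ring
  have h2 : ∑ x ∈ A, ∑ y ∈ B, ‖D N a (v + x - y)‖ ^ 2 ≤ C * T ^ ε * A.card * B.card * N := by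
    refine le_trans ?_ hs
    have h := bil hI1 a haI A B (fun x => -x) (fun y => y) (-v)
    rw [neg_ZZ] at h
    refine le_trans (le_of_eq ?_) h
    refine sum_congr rfl fun x _ => sum_congr rfl fun y _ => ?_
    rw [D_eq]
    congr 3
    ring
  refine ⟨h1, h2, ?_⟩
  intro V hV
  have hV2 : 0 < V ^ 2 := by positivity
  have h3 : (((A ×ˢ B).filter (fun p => V ≤ ‖D N a (v + p.1 + p.2)‖)).card : ℝ) * V ^ 2 ≤
      C * T ^ ε * A.card * B.card * N := by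
    refine le_trans ?_ h1
    rw [← nsmul_eq_mul, ← sum_const, ← sum_product']
    calc ∑ p ∈ (A ×ˢ B).filter (fun p => V ≤ ‖D N a (v + p.1 + p.2)‖), V ^ 2
        ≤ ∑ p ∈ (A ×ˢ B).filter (fun p => V ≤ ‖D N a (v + p.1 + p.2)‖),
            ‖D N a (v + p.1 + p.2)‖ ^ 2 := by
          refine sum_le_sum fun p hp => ?_
          exact pow_le_pow_left₀ hV.le (mem_filter.1 hp).2 2
      _ ≤ ∑ p ∈ A ×ˢ B, ‖D N a (v + p.1 + p.2)‖ ^ 2 :=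
          sum_le_sum_of_subset_of_nonneg (filter_subset _ _) fun _ _ _ => by positivity
  rw [← le_div_iff₀ hV2] at h3
  refine h3.trans (le_of_eq ?_)
  ring

theorem general (m : ℕ) (hm : 1 ≤ m) (ε : ℝ) (hε : 0 < ε) :
    ∃ C : ℝ, ∀ (N : ℕ) (T : ℝ) (a : ℕ → ℂ) (A B : Finset ℝ) (α β : ℝ), 1 ≤ N → (∀ k, ‖a k‖ ≤ 1) →
      Spaced A T → Spaced B T → (N : ℝ) ^ (2 * m) ≤ T → 0 ≤ α → α ≤ 1 → 0 ≤ β → β ≤ 1 →
      T ^ α ≤ (A.card : ℝ) → T ^ β ≤ (B.card : ℝ) →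
      ∀ v : ℝ, ∑ x ∈ A, ∑ y ∈ B, ‖D N a (v + x + y)‖ ^ 2 ≤ C * T ^ ε * A.card * B.card *
        (N : ℝ) ^ ((max 1 (2 * (1 - α) * (m + 1) / (m + 1 - α)) +
          max 1 (2 * (1 - β) * (m + 1) / (m + 1 - β))) / 2) := by
  classical
  obtain ⟨C, hC1, hC⟩ := Z2 hε m hm
  refine ⟨C, ?_⟩
  intro N T a A B α β hN ha hA hB hNT hα0 hα1 hβ0 hβ1 hTA hTB v
  have hNr1 : (1 : ℝ) ≤ N := by exact_mod_cast hN
  have hT : 1 ≤ T := (one_le_pow₀ hNr1).trans hNT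
  have hT0 : 0 < T := by linarith
  set I : Finset ℕ := Icc 1 N with hI
  have hI1 : ∀ m ∈ I, 1 ≤ m := fun m hm => (mem_Icc.1 hm).1
  have haI : ∀ m ∈ I, ‖a m‖ ≤ 1 := fun m _ => ha m
  obtain ⟨hA1, x, hA2⟩ := hA
  obtain ⟨hB1, y, hB2⟩ := hB
  have zA := hC α hα0 hα1 T hT A x ⟨hA1, hA2⟩ N hN hNT hTA I (Finset.Subset.refl _)
  have zB := hC β hβ0 hβ1 T hT B y ⟨hB1, hB2⟩ N hN hNT hTB I (Finset.Subset.refl _)
  have hNr : (0 : ℝ) < N := by exact_mod_cast hN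
  have gα : gam m α = 2 * (1 - α) * (m + 1) / (m + 1 - α) := rfl
  have gβ : gam m β = 2 * (1 - β) * (m + 1) / (m + 1 - β) := rfl
  rw [gα] at zA
  rw [gβ] at zB
  obtain ⟨u, hu⟩ : ∃ u : ℝ, u = max 1 (2 * (1 - α) * (m + 1) / (m + 1 - α)) := ⟨_, rfl⟩
  obtain ⟨w, hw⟩ : ∃ w : ℝ, w = max 1 (2 * (1 - β) * (m + 1) / (m + 1 - β)) := ⟨_, rfl⟩
  rw [← hu] at zA
  rw [← hw] at zB
  rw [← hu, ← hw]
  have h := bil hI1 a haI A B (fun x => -x) (fun y => -y) (-v)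
  rw [neg_ZZ, neg_ZZ] at h
  have h1 : ∑ x ∈ A, ∑ y ∈ B, ‖D N a (v + x + y)‖ ^ 2 ≤
      Real.sqrt (ZZ I A) * Real.sqrt (ZZ I B) := by
    refine le_trans (le_of_eq ?_) h
    refine sum_congr rfl fun x _ => sum_congr rfl fun y _ => ?_
    rw [D_eq]
    congr 3
    ring
  refine h1.trans ?_
  have a1 : Real.sqrt (ZZ I A) * Real.sqrt (ZZ I B) ≤
      Real.sqrt (C * T ^ ε * (A.card : ℝ) ^ 2 * (N : ℝ) ^ u) *
      Real.sqrt (C * T ^ ε * (B.card : ℝ) ^ 2 * (N : ℝ) ^ w) := by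
    apply mul_le_mul (Real.sqrt_le_sqrt zA) (Real.sqrt_le_sqrt zB) (Real.sqrt_nonneg _)
      (Real.sqrt_nonneg _)
  refine a1.trans (le_of_eq ?_)
  have e1 : (N : ℝ) ^ u * (N : ℝ) ^ w = ((N : ℝ) ^ ((u + w) / 2)) ^ 2 := by
    rw [← Real.rpow_add hNr, ← Real.rpow_natCast, ← Real.rpow_mul hNr.le]
    congr 1
    push_cast
    ring
  rw [← Real.sqrt_mul (by positivity)]
  have e2 : C * T ^ ε * (A.card : ℝ) ^ 2 * (N : ℝ) ^ u * (C * T ^ ε * (B.card : ℝ) ^ 2 * (N : ℝ) ^ w) =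
      (C * T ^ ε * A.card * B.card * (N : ℝ) ^ ((u + w) / 2)) ^ 2 := by
    calc _ = (C * T ^ ε * A.card * B.card) ^ 2 * ((N : ℝ) ^ u * (N : ℝ) ^ w) := by ring
      _ = _ := by rw [e1]; ring
  rw [e2, Real.sqrt_sq (by positivity)]

theorem result :
    (∀ (n : ℕ), 1 ≤ n → ∀ (ε : ℝ), 0 < ε →
      ∃ C : ℝ, ∀ (N : ℕ) (T : ℝ) (a : ℕ → ℂ) (A B : Finset ℝ), 1 ≤ N → 1 ≤ T → (∀ m, ‖a m‖ ≤ 1) →
        Spaced A T → Spaced B T → N ^ n ≤ A.card → N ^ n ≤ B.card →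
        T ^ (n + 1) ≤ (A.card : ℝ) ^ (2 * n + 1) → T ^ (n + 1) ≤ (B.card : ℝ) ^ (2 * n + 1) →
        ∀ v : ℝ,
          (∑ x ∈ A, ∑ y ∈ B, ‖D N a (v + x + y)‖ ^ 2 ≤ C * T ^ ε * A.card * B.card * N) ∧
          (∑ x ∈ A, ∑ y ∈ B, ‖D N a (v + x - y)‖ ^ 2 ≤ C * T ^ ε * A.card * B.card * N) ∧
          ∀ V : ℝ, 0 < V →
            (((A ×ˢ B).filter (fun p => V ≤ ‖D N a (v + p.1 + p.2)‖)).card : ℝ) ≤
              C * T ^ ε * N / V ^ 2 * (A.card * B.card)) ∧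
    (∀ (m : ℕ), 1 ≤ m → ∀ (ε : ℝ), 0 < ε →
      ∃ C : ℝ, ∀ (N : ℕ) (T : ℝ) (a : ℕ → ℂ) (A B : Finset ℝ) (α β : ℝ), 1 ≤ N → (∀ k, ‖a k‖ ≤ 1) →
        Spaced A T → Spaced B T → (N : ℝ) ^ (2 * m) ≤ T → 0 ≤ α → α ≤ 1 → 0 ≤ β → β ≤ 1 →
        T ^ α ≤ (A.card : ℝ) → T ^ β ≤ (B.card : ℝ) →
        ∀ v : ℝ, ∑ x ∈ A, ∑ y ∈ B, ‖D N a (v + x + y)‖ ^ 2 ≤ C * T ^ ε * A.card * B.card *
          (N : ℝ) ^ ((max 1 (2 * (1 - α) * (m + 1) / (m + 1 - α)) +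
            max 1 (2 * (1 - β) * (m + 1) / (m + 1 - β))) / 2)) :=
  ⟨clean, general⟩

end Pool.Agent.Results.MP_a93a41_nt.SumsetAverages
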